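import Pool.Agent.Helper47.UG.Stmts

set_option autoImplicit false

/-!
UG, module RGM: the main range.
-/

namespace Pool.Agent.Helper47.UG

open Finset
open scoped Classical
open Pool.Agent.Helper17.SO (PP LL)
open Pool.Agent.Helper37.DG (box sbox hit Free sw Spl PD)

theorem rgm_K (y b N : ℕ) (hy : 2 ≤ y) (hb : 1 ≤ b) (h : y ^ b ≤ N) :
    ∃ K : ℕ, (y ^ (2 ^ K)) ^ b ≤ N ∧ N < (y ^ (2 ^ K)) ^ (2 * b) := by
  have hex : ∃ K : ℕ, N < (y ^ (2 ^ K)) ^ b := by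
    refine ⟨N, ?_⟩
    have h1 : N < 2 ^ N := Nat.lt_two_pow_self
    have h2 : 2 ^ N < 2 ^ (2 ^ N) := Nat.lt_two_pow_self
    have h3 : 2 ^ (2 ^ N) ≤ y ^ (2 ^ N) := Nat.pow_le_pow_left hy _
    have h4 : (y ^ (2 ^ N)) ^ 1 ≤ (y ^ (2 ^ N)) ^ b :=
      Nat.pow_le_pow_right (by positivity) hb
    rw [pow_one] at h4
    omega
  obtain ⟨K, hK, hmin⟩ : ∃ K : ℕ, N < (y ^ (2 ^ K)) ^ b ∧
      ∀ m < K, ¬ N < (y ^ (2 ^ m)) ^ b :=
    ⟨Nat.find hex, Nat.find_spec hex, fun m hm => Nat.find_min hex hm⟩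
  rcases Nat.eq_zero_or_pos K with h0 | h0
  · subst h0
    simp only [pow_zero, pow_one] at hK
    omega
  · refine ⟨K - 1, not_lt.1 (hmin (K - 1) (by omega)), ?_⟩
    have h5 : (y ^ 2 ^ (K - 1)) ^ (2 * b) = (y ^ 2 ^ K) ^ b := by
      rw [← pow_mul, ← pow_mul]
      congr 1
      have h6 : 2 ^ K = 2 ^ (K - 1) * 2 := by
        rw [← pow_succ]
        congr 1
        omega
      rw [h6]
      ring
    rw [h5]
    exact hK

theorem rgm_ds3 (a b c : ℤ) (h : 0 < ds a b c) : 3 ≤ ds a b c := by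
  obtain ⟨k, hk⟩ := Int.even_or_odd' b
  rcases hk with hk | hk
  · have h1 : ds a b c = 4 * (a * c - k ^ 2) := by
      unfold ds
      subst hk
      ring
    omega
  · have h1 : ds a b c = 4 * (a * c - k ^ 2 - k) - 1 := by
      unfold ds
      subst hk
      ring
    omega

theorem rgm_Dn (a b c : ℤ) (h : 0 < ds a b c) : ((Dn a b c : ℕ) : ℤ) = ds a b c :=
  Int.toNat_of_nonneg h.le

theorem rgm_D9 (a b c : ℤ) (N : ℕ) (hN : 256 ≤ N) (h : 0 < ds a b c)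
    (ha : |a| ≤ 8 * (N : ℤ) ^ 4) (hc : |c| ≤ 8 * (N : ℤ) ^ 4) : Dn a b c ≤ N ^ 9 := by
  have h1 : ((Dn a b c : ℕ) : ℤ) ≤ ((N ^ 9 : ℕ) : ℤ) := by
    rw [rgm_Dn a b c h]
    have h2 : a * c ≤ (8 * (N : ℤ) ^ 4) * (8 * (N : ℤ) ^ 4) := by
      calc a * c ≤ |a * c| := le_abs_self _
        _ = |a| * |c| := abs_mul _ _
        _ ≤ (8 * (N : ℤ) ^ 4) * (8 * (N : ℤ) ^ 4) :=
          mul_le_mul ha hc (abs_nonneg _) (by positivity)
    have h3 : (256 : ℤ) ≤ N := by exact_mod_cast hN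
    have h4 : ds a b c ≤ 256 * (N : ℤ) ^ 8 := by
      unfold ds
      nlinarith [sq_nonneg b]
    have h5 : 256 * (N : ℤ) ^ 8 ≤ (N : ℤ) * (N : ℤ) ^ 8 :=
      mul_le_mul_of_nonneg_right h3 (by positivity)
    push_cast
    calc ds a b c ≤ 256 * (N : ℤ) ^ 8 := h4
      _ ≤ (N : ℤ) * (N : ℤ) ^ 8 := h5
      _ = (N : ℤ) ^ 9 := by ring
  exact_mod_cast h1

theorem rgm_root (a b c : ℤ) (p : ℕ) (h : 0 < ds a b c) (hp : Spl (Dn a b c) p) :
    ∃ r : ℤ, (p : ℤ) ∣ a * r ^ 2 - b * r + c := by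
  obtain ⟨hpp, h2D, r, hr⟩ := hp
  rw [rgm_Dn a b c h] at hr
  have hpi : Prime (p : ℤ) := Nat.prime_iff_prime_int.1 hpp
  have h2 : ¬ (p : ℤ) ∣ 2 := by
    intro h3
    apply h2D
    have h4 : p ∣ 2 := by exact_mod_cast h3
    exact h4.mul_right _
  have hD : ¬ (p : ℤ) ∣ ds a b c := by
    intro h3
    apply h2D
    rw [← rgm_Dn a b c h] at h3
    have h4 : p ∣ Dn a b c := by exact_mod_cast h3
    exact h4.mul_left _
  by_cases hpa : (p : ℤ) ∣ a
  · have hpb : ¬ (p : ℤ) ∣ b := by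
      intro h3
      apply hD
      unfold ds
      exact dvd_sub ((hpa.mul_left 4).mul_right c) (dvd_pow h3 (by norm_num))
    have hcop : IsCoprime (p : ℤ) b := (hpi.coprime_iff_not_dvd).2 hpb
    obtain ⟨u, v, huv⟩ := hcop
    refine ⟨v * c, ?_⟩
    have h4 : a * (v * c) ^ 2 - b * (v * c) + c = a * (v * c) ^ 2 + (p : ℤ) * (u * c) := by
      linear_combination (-c) * huv
    rw [h4]
    exact dvd_add (hpa.mul_right _) (Dvd.intro _ rfl)
  · have h2a : ¬ (p : ℤ) ∣ 2 * a := by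
      intro h3
      rcases hpi.dvd_or_dvd h3 with h4 | h4
      · exact h2 h4
      · exact hpa h4
    have hcop : IsCoprime (p : ℤ) (2 * a) := (hpi.coprime_iff_not_dvd).2 h2a
    obtain ⟨u, v, huv⟩ := hcop
    refine ⟨v * (b + r), ?_⟩
    have h4 : (p : ℤ) ∣ (4 * a) * (a * (v * (b + r)) ^ 2 - b * (v * (b + r)) + c) := by
      have h5 : (4 * a) * (a * (v * (b + r)) ^ 2 - b * (v * (b + r)) + c) =
          (r ^ 2 + ds a b c) + (p : ℤ) * (- u * (b + r) * (2 * a * (v * (b + r)) - b + r)) := by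
        have h6 : 2 * a * (v * (b + r)) = (b + r) - (p : ℤ) * u * (b + r) := by
          linear_combination (b + r) * huv
        have h7 : (4 * a) * (a * (v * (b + r)) ^ 2 - b * (v * (b + r)) + c) =
            (2 * a * (v * (b + r)) - b) ^ 2 + ds a b c := by
          unfold ds
          ring
        rw [h7]
        have h8 : (2 * a * (v * (b + r)) - b) ^ 2 - r ^ 2 =
            (2 * a * (v * (b + r)) - b - r) * (2 * a * (v * (b + r)) - b + r) := by ring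
        have h9 : 2 * a * (v * (b + r)) - b - r = - ((p : ℤ) * u * (b + r)) := by
          rw [h6]; ring
        rw [h9] at h8
        linear_combination h8
      rw [h5]
      exact dvd_add hr (Dvd.intro _ rfl)
    have h4a : ¬ (p : ℤ) ∣ 4 * a := by
      intro h3
      have h5 : (p : ℤ) ∣ 2 * (2 * a) := by
        have : (4 : ℤ) * a = 2 * (2 * a) := by ring
        rwa [this] at h3
      rcases hpi.dvd_or_dvd h5 with h6 | h6
      · exact h2 h6
      · exact h2a h6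
    rcases hpi.dvd_or_dvd h4 with h6 | h6
    · exact absurd h6 h4a
    · exact h6

theorem rgm_j (a b c : ℤ) (h : 0 < ds a b c) : ∃ j : ℕ → ℤ, ∀ w z : ℕ,
    ∀ p ∈ PD (Dn a b c) w z, (p : ℤ) ∣ a * j p ^ 2 - b * j p + c := by
  have h1 : ∀ p : ℕ, ∃ r : ℤ, Spl (Dn a b c) p → (p : ℤ) ∣ a * r ^ 2 - b * r + c := by
    intro p
    by_cases hp : Spl (Dn a b c) p
    · obtain ⟨r, hr⟩ := rgm_root a b c p h hp
      exact ⟨r, fun _ => hr⟩
    · exact ⟨0, fun h2 => absurd h2 hp⟩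
  choose j hj using h1
  exact ⟨j, fun w z p hp => hj p (Finset.mem_filter.1 hp).2⟩

theorem rgm_pos (a b c : ℤ) (h : Pos a b c) (v : ℤ × ℤ) (hv : v ≠ 0) : 0 < qf a b c v := by
  obtain ⟨ha, hd⟩ := h
  have h1 : 4 * a * qf a b c v = (2 * a * v.1 + b * v.2) ^ 2 + ds a b c * v.2 ^ 2 := by
    unfold qf ds
    ring
  have h2 : 0 < (2 * a * v.1 + b * v.2) ^ 2 + ds a b c * v.2 ^ 2 := by
    by_cases h3 : v.2 = 0
    · have h4 : v.1 ≠ 0 := by
        intro h5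
        exact hv (Prod.ext h5 h3)
      rw [h3]
      have h6 : (2 * a * v.1) ≠ 0 := by
        have : (2 : ℤ) * a ≠ 0 := by positivity
        exact mul_ne_zero this h4
      have h7 : 0 < (2 * a * v.1) ^ 2 := by positivity
      simpa using h7
    · have h4 : 0 < v.2 ^ 2 := by positivity
      have h5 : 0 < ds a b c * v.2 ^ 2 := mul_pos hd h4
      have h6 := sq_nonneg (2 * a * v.1 + b * v.2)
      linarith
  rw [← h1] at h2
  have h3 : (0 : ℤ) < 4 * a := by linarith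
  exact (pos_iff_pos_of_mul_pos h2).1 h3

theorem rgm_qub (a b c : ℤ) (N M : ℕ) (v : ℤ × ℤ) (hMN : M ≤ N) (hv : v ∈ sbox N M)
    (ha : |a| ≤ 8 * (N : ℤ) ^ 4) (hb : |b| ≤ 8 * (N : ℤ) ^ 4) (hc : |c| ≤ 8 * (N : ℤ) ^ 4) :
    qf a b c v ≤ 24 * (N : ℤ) ^ 6 := by
  unfold sbox at hv
  rw [Finset.mem_product, Finset.mem_Icc, Finset.mem_Icc] at hv
  obtain ⟨⟨h1, h2⟩, h3, h4⟩ := hv
  have hMN' : (M : ℤ) ≤ N := by exact_mod_cast hMN
  have hx : |v.1| ≤ N := abs_le.2 ⟨h1, h2⟩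
  have hy : |v.2| ≤ N := abs_le.2 ⟨by linarith, by linarith⟩
  have hN0 : (0 : ℤ) ≤ N := by positivity
  have e1 : a * v.1 ^ 2 ≤ 8 * (N : ℤ) ^ 4 * (N : ℤ) ^ 2 := by
    calc a * v.1 ^ 2 ≤ |a * v.1 ^ 2| := le_abs_self _
      _ = |a| * |v.1| ^ 2 := by rw [abs_mul, abs_pow]
      _ ≤ 8 * (N : ℤ) ^ 4 * (N : ℤ) ^ 2 :=
        mul_le_mul ha (pow_le_pow_left₀ (abs_nonneg _) hx 2) (by positivity) (by positivity)
  have e3 : c * v.2 ^ 2 ≤ 8 * (N : ℤ) ^ 4 * (N : ℤ) ^ 2 := by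
    calc c * v.2 ^ 2 ≤ |c * v.2 ^ 2| := le_abs_self _
      _ = |c| * |v.2| ^ 2 := by rw [abs_mul, abs_pow]
      _ ≤ 8 * (N : ℤ) ^ 4 * (N : ℤ) ^ 2 :=
        mul_le_mul hc (pow_le_pow_left₀ (abs_nonneg _) hy 2) (by positivity) (by positivity)
  have e2 : b * v.1 * v.2 ≤ 8 * (N : ℤ) ^ 4 * ((N : ℤ) * N) := by
    calc b * v.1 * v.2 ≤ |b * v.1 * v.2| := le_abs_self _
      _ = |b| * (|v.1| * |v.2|) := by rw [abs_mul, abs_mul]; ring
      _ ≤ 8 * (N : ℤ) ^ 4 * ((N : ℤ) * N) :=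
        mul_le_mul hb (mul_le_mul hx hy (abs_nonneg _) hN0) (by positivity) (by positivity)
  unfold qf
  nlinarith

theorem rgm_w (D w₀ T N b : ℕ) (hw₀ : 16 ≤ w₀) (hT : 1 ≤ T) (hTb : 72 * b ≤ T) (hD : 1 ≤ D)
    (hDN : D ≤ N ^ 9) (hN1 : 2 ^ T ≤ N) (hN2 : w₀ ^ (12 * b) ≤ N) :
    ∃ w : ℕ, w₀ ≤ w ∧ D ≤ w ^ (3 * T) ∧ w ^ (12 * b) ≤ N ∧ (w = w₀ ∨ 4 * w ^ (2 * T) < D) := by
  by_cases h0 : D ≤ w₀ ^ (3 * T)
  · exact ⟨w₀, le_rfl, h0, hN2, Or.inl rfl⟩
  · push Not at h0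
    have hex : ∃ w : ℕ, D ≤ w ^ (3 * T) := by
      refine ⟨D, ?_⟩
      calc D = D ^ 1 := (pow_one D).symm
        _ ≤ D ^ (3 * T) := Nat.pow_le_pow_right hD (by omega)
    obtain ⟨w, hw, hmin⟩ : ∃ w : ℕ, D ≤ w ^ (3 * T) ∧ ∀ m < w, ¬ D ≤ m ^ (3 * T) :=
      ⟨Nat.find hex, Nat.find_spec hex, fun m hm => Nat.find_min hex hm⟩
    have hww : w₀ < w := by
      by_contra h1
      push Not at h1
      have h2 : w ^ (3 * T) ≤ w₀ ^ (3 * T) := Nat.pow_le_pow_left h1 _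
      omega
    have hlt : (w - 1) ^ (3 * T) < D := not_le.1 (hmin (w - 1) (by omega))
    obtain ⟨u, hu⟩ : ∃ u : ℕ, w = u + 1 := ⟨w - 1, by omega⟩
    rw [hu, Nat.add_sub_cancel] at hlt
    have hu16 : 16 ≤ u := by omega
    refine ⟨w, hww.le, hw, ?_, Or.inr ?_⟩
    · by_contra h1
      push Not at h1
      have h2 : (u ^ T) ^ 3 < (N ^ 3) ^ 3 := by
        calc (u ^ T) ^ 3 = u ^ (3 * T) := by rw [← pow_mul]; congr 1; ring
          _ < D := hlt
          _ ≤ N ^ 9 := hDN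
          _ = (N ^ 3) ^ 3 := by ring
      have h3 : u ^ T < N ^ 3 := lt_of_pow_lt_pow_left₀ 3 (by positivity) h2
      have h4 : w ^ T ≤ N ^ 4 := by
        calc w ^ T ≤ (2 * u) ^ T := Nat.pow_le_pow_left (by omega) _
          _ = 2 ^ T * u ^ T := mul_pow _ _ _
          _ ≤ N * N ^ 3 := Nat.mul_le_mul hN1 h3.le
          _ = N ^ 4 := by ring
      have h5 : w ^ (72 * b) ≤ w ^ T := Nat.pow_le_pow_right (by omega) hTb
      have h6 : N ^ 6 < w ^ (72 * b) := by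
        calc N ^ 6 < (w ^ (12 * b)) ^ 6 := Nat.pow_lt_pow_left h1 (by norm_num)
          _ = w ^ (72 * b) := by rw [← pow_mul]; congr 1; ring
      have h7 : N ^ 4 ≤ N ^ 6 := by
        have hNp : 0 < N := lt_of_lt_of_le (by positivity) hN1
        exact Nat.pow_le_pow_right hNp (by norm_num)
      omega
    · refine lt_of_le_of_lt ?_ hlt
      rw [hu]
      have h1 : 4 * (u + 1) ^ 2 ≤ u ^ 3 := by nlinarith
      calc 4 * (u + 1) ^ (2 * T) ≤ 4 ^ T * (u + 1) ^ (2 * T) := by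
            refine Nat.mul_le_mul_right _ ?_
            calc 4 = 4 ^ 1 := by norm_num
              _ ≤ 4 ^ T := Nat.pow_le_pow_right (by norm_num) hT
        _ = (4 * (u + 1) ^ 2) ^ T := by rw [mul_pow, ← pow_mul]
        _ ≤ (u ^ 3) ^ T := Nat.pow_le_pow_left h1 T
        _ = u ^ (3 * T) := by rw [← pow_mul]

theorem rgm_sw (A : Finset ℕ) (D w z N T : ℕ) (C : ℝ) (hw : 2 ≤ w) (hwz : w ≤ z) (hzN : z ≤ N)
    (hD : 3 ≤ D) (hT : 1 ≤ T) (hDw : D ≤ w ^ (3 * T))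
    (hs : ∑ p ∈ A, 1 / (p : ℝ) ≤ LL w z / 2 + C) :
    Real.exp (-C) / Real.sqrt (3 * T) * Real.sqrt (Real.log D / Real.log N) ≤ sw A := by
  have hwr : (2 : ℝ) ≤ w := by exact_mod_cast hw
  have hwzr : (w : ℝ) ≤ z := by exact_mod_cast hwz
  have hzNr : (z : ℝ) ≤ N := by exact_mod_cast hzN
  have hlw : 0 < Real.log w := Real.log_pos (by linarith)
  have hlz : 0 < Real.log z := Real.log_pos (by linarith)
  have hlN : 0 < Real.log N := Real.log_pos (by linarith)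
  have hlD : 0 < Real.log D := by
    have : (3 : ℝ) ≤ D := by exact_mod_cast hD
    exact Real.log_pos (by linarith)
  have hTr : (1 : ℝ) ≤ T := by exact_mod_cast hT
  have h1 : Real.exp (-C) * Real.exp (-(LL w z) / 2) ≤ sw A := by
    unfold sw
    rw [← Real.exp_add]
    exact Real.exp_le_exp.2 (by linarith)
  have h2 : Real.exp (-(LL w z) / 2) = Real.sqrt (Real.log w / Real.log z) := by
    rw [Real.exp_half]
    congr 1
    unfold LL
    rw [← Real.log_inv, Real.exp_log (by positivity)]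
    rw [inv_div]
  have h3 : Real.log D ≤ (3 * T) * Real.log w := by
    have h4 : Real.log D ≤ Real.log ((w : ℝ) ^ (3 * T)) := by
      refine Real.log_le_log (by positivity) ?_
      exact_mod_cast hDw
    rw [Real.log_pow] at h4
    push_cast at h4
    exact h4
  have h5 : Real.log D / Real.log N / (3 * T) ≤ Real.log w / Real.log z := by
    have h6 : Real.log z ≤ Real.log N := Real.log_le_log (by linarith) hzNr
    rw [div_div, div_le_div_iff₀ (by positivity) hlz]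
    calc Real.log D * Real.log z ≤ ((3 * T) * Real.log w) * Real.log N :=
          mul_le_mul h3 h6 hlz.le (by positivity)
      _ = Real.log w * (Real.log N * (3 * T)) := by ring
  calc Real.exp (-C) / Real.sqrt (3 * T) * Real.sqrt (Real.log D / Real.log N)
      = Real.exp (-C) * (Real.sqrt (Real.log D / Real.log N) / Real.sqrt (3 * T)) := by ring
    _ = Real.exp (-C) * Real.sqrt (Real.log D / Real.log N / (3 * T)) := by
        have h6 := Real.sqrt_div' (Real.log D / Real.log N) (show (0 : ℝ) ≤ 3 * T by positivity)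
        rw [h6]
    _ ≤ Real.exp (-C) * Real.sqrt (Real.log w / Real.log z) :=
        mul_le_mul_of_nonneg_left (Real.sqrt_le_sqrt h5) (Real.exp_pos _).le
    _ = Real.exp (-C) * Real.exp (-(LL w z) / 2) := by rw [h2]
    _ ≤ sw A := h1

theorem rgm_t (N b : ℕ) (hN : 1 ≤ N) (hb : 1 ≤ b) : ∃ t : ℝ, 1 ≤ t ∧ t ^ (48 * b) = N := by
  have hNr : (1 : ℝ) ≤ N := by exact_mod_cast hN
  refine ⟨(N : ℝ) ^ (1 / ((48 * b : ℕ) : ℝ)), Real.one_le_rpow hNr (by positivity), ?_⟩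
  rw [← Real.rpow_natCast, ← Real.rpow_mul (by positivity)]
  have : (1 / ((48 * b : ℕ) : ℝ)) * ((48 * b : ℕ) : ℝ) = 1 := by
    have : ((48 * b : ℕ) : ℝ) ≠ 0 := by
      have : 48 * b ≠ 0 := by omega
      exact_mod_cast this
    field_simp
  rw [this, Real.rpow_one]

theorem rgm_fib (a b c : ℤ) (j : ℕ → ℤ) (N M w₀ w z κ T : ℕ) (hFIB : ST_FIB) (hpos : Pos a b c)
    (hw : 2 ≤ w) (hwz : w ≤ z) (hMN : M ≤ N)
    (ha : |a| ≤ 8 * (N : ℤ) ^ 4) (hb : |b| ≤ 8 * (N : ℤ) ^ 4) (hc : |c| ≤ 8 * (N : ℤ) ^ 4)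
    (hj : ∀ p ∈ PD (Dn a b c) w z, (p : ℤ) ∣ a * j p ^ 2 - b * j p + c)
    (hκ : 24 * N ^ 6 < z ^ κ) (hww : w = w₀ ∨ 4 * w ^ (2 * T) < Dn a b c)
    (s : ℤ) (S : Finset (ℤ × ℤ))
    (hS : ∀ v ∈ S, v ∈ sbox N M ∧ v ≠ 0 ∧ Free j (PD (Dn a b c) w z) v ∧
      (sm a b c w v ≤ w ^ T ∧
        ∀ p : ℕ, p.Prime → w < p → p ∣ Dn a b c → ¬ (p : ℤ) ∣ qf a b c v) ∧ qf a b c v = s) :
    (S.card : ℝ) ≤ 2 ^ κ * (8 * (w₀ : ℝ) ^ T + 2) := by
  rcases S.eq_empty_or_nonempty with h0 | ⟨v₀, hv₀⟩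
  · rw [h0]
    simp only [Finset.card_empty, Nat.cast_zero]
    positivity
  · obtain ⟨hv1, hv2, hv3, ⟨hv4, hv5⟩, hv6⟩ := hS v₀ hv₀
    have hs0 : 0 < s := by
      rw [← hv6]
      exact rgm_pos a b c hpos v₀ hv2
    obtain ⟨m, hm⟩ : ∃ m : ℕ, s = (m : ℤ) := ⟨s.toNat, (Int.toNat_of_nonneg hs0.le).symm⟩
    have hm1 : 1 ≤ m := by
      rw [hm] at hs0
      exact_mod_cast hs0
    have hmz : m < z ^ κ := by
      have h1 := rgm_qub a b c N M v₀ hMN hv1 ha hb hc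
      rw [hv6, hm] at h1
      have h2 : m ≤ 24 * N ^ 6 := by exact_mod_cast h1
      omega
    have hq : ∀ v ∈ S, (qf a b c v).natAbs = m := by
      intro v hv
      rw [(hS v hv).2.2.2.2, hm]
      exact Int.natAbs_natCast m
    have hsm : ∏ p ∈ PP 0 w, p ^ m.factorization p ≤ w ^ T := by
      have h1 := hv4
      unfold sm at h1
      rwa [hq v₀ hv₀] at h1
    have h := hFIB a b c j w z κ T m S hpos hw hwz hm1 hj
      (fun v hv => ⟨by rw [(hS v hv).2.2.2.2, hm], (hS v hv).2.2.1⟩)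
      (by
        intro p hp hwp hpD hpm
        apply hv5 p hp hwp hpD
        rw [hv6, hm]
        exact_mod_cast hpm) hsm hmz
    rcases hww with hww | hww
    · have h1 : (S.card : ℝ) ≤ ((2 ^ κ * (8 * w ^ T + 2) : ℕ) : ℝ) := by exact_mod_cast h.1
      rw [hww] at h1
      push_cast at h1
      exact h1
    · have h1 : (S.card : ℝ) ≤ ((2 ^ κ * 2 : ℕ) : ℝ) := by exact_mod_cast h.2 hww
      push_cast at h1
      refine h1.trans ?_
      refine mul_le_mul_of_nonneg_left ?_ (by positivity)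
      have : (0 : ℝ) ≤ 8 * (w₀ : ℝ) ^ T := by positivity
      linarith

theorem rgm_bad (a b c : ℤ) (j : ℕ → ℤ) (N M w T : ℕ) (A : Finset ℕ) (Fr Gd : ℤ × ℤ → Prop)
    (hFr : ∀ v, Fr v → Free j A v)
    (hGd : ∀ v, sm a b c w v ≤ w ^ T →
      (∀ p : ℕ, p.Prime → w < p → p ∣ Dn a b c → ¬ (p : ℤ) ∣ qf a b c v) → Gd v) :
    (((sbox N M).filter (fun v => v ≠ 0 ∧ Fr v ∧ ¬ Gd v)).card : ℝ) ≤
    (((sbox N M).filter (fun v => v ≠ 0 ∧ Free j A v ∧ w ^ T < sm a b c w v)).card : ℝ) +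
    (((sbox N M).filter (fun v => v ≠ 0 ∧ Free j A v ∧
      ∃ p : ℕ, p.Prime ∧ w < p ∧ p ∣ Dn a b c ∧ (p : ℤ) ∣ qf a b c v)).card : ℝ) := by
  have h1 : ((sbox N M).filter (fun v => v ≠ 0 ∧ Fr v ∧ ¬ Gd v)) ⊆
      ((sbox N M).filter (fun v => v ≠ 0 ∧ Free j A v ∧ w ^ T < sm a b c w v)) ∪
      ((sbox N M).filter (fun v => v ≠ 0 ∧ Free j A v ∧
      ∃ p : ℕ, p.Prime ∧ w < p ∧ p ∣ Dn a b c ∧ (p : ℤ) ∣ qf a b c v)) := by
    intro v hv
    rw [Finset.mem_filter] at hv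
    obtain ⟨hv1, hv2, hv3, hv4⟩ := hv
    rw [Finset.mem_union, Finset.mem_filter, Finset.mem_filter]
    by_cases h2 : sm a b c w v ≤ w ^ T
    · right
      refine ⟨hv1, hv2, hFr v hv3, ?_⟩
      by_contra h3
      apply hv4
      exact hGd v h2 (fun p hp hwp hpD hpq => h3 ⟨p, hp, hwp, hpD, hpq⟩)
    · left
      exact ⟨hv1, hv2, hFr v hv3, not_le.1 h2⟩
  have h2 := (Finset.card_le_card h1).trans (Finset.card_union_le _ _)
  exact_mod_cast h2

theorem st_RGM (hTLT : ST_TLT) (hBDA : ST_BDA) (hBDB : ST_BDB) (hFIB : ST_FIB) (hCOR : ST_COR)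
    (hL : Pool.Agent.Helper37.DG.ST_LOWD) : ST_RGM := by
  intro δ hδ
  obtain ⟨b₁, y₀, c₁, C₁, hb₁, hc₁, hC₁, hlow⟩ := hL
  obtain ⟨b₂, C₂, hb₂, hC₂, hbda⟩ := hBDA
  obtain ⟨b₃, C₃, hb₃, hC₃, hbdb⟩ := hBDB
  obtain ⟨b, hb⟩ : ∃ x' : ℕ, x' = max b₁ (max b₂ b₃) + 1 := ⟨_, rfl⟩
  have hb1 : b₁ + 1 ≤ b := by rw [hb]; exact Nat.add_le_add_right (le_max_left _ _) 1
  have hb2 : b₂ + 1 ≤ b := by
    rw [hb]; exact Nat.add_le_add_right ((le_max_left _ _).trans (le_max_right _ _)) 1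
  have hb3 : b₃ + 1 ≤ b := by
    rw [hb]; exact Nat.add_le_add_right ((le_max_right _ _).trans (le_max_right _ _)) 1
  obtain ⟨T, hTdef⟩ : ∃ T : ℕ, T = max (max 200 (72 * b)) ⌈C₂ * 48 / (c₁ * δ)⌉₊ := ⟨_, rfl⟩
  have hT200 : 200 ≤ T := by rw [hTdef]; exact (le_max_left _ _).trans (le_max_left _ _)
  have hTb : 72 * b ≤ T := by rw [hTdef]; exact (le_max_right _ _).trans (le_max_left _ _)
  have hTr : (0 : ℝ) < T := by
    have : 0 < T := by omega
    exact_mod_cast this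
  have hTC : C₂ / T ≤ c₁ * δ / 48 := by
    have h1 : C₂ * 48 / (c₁ * δ) ≤ T := by
      rw [hTdef]
      refine (Nat.le_ceil _).trans ?_
      exact_mod_cast le_max_right _ _
    rw [div_le_iff₀ (by positivity)] at h1
    rw [div_le_div_iff₀ hTr (by norm_num)]
    linarith
  obtain ⟨w₀, hw₀def⟩ : ∃ w₀ : ℕ, w₀ = max (max (max 16 y₀) ⌈C₂ * 48 / (c₁ * δ)⌉₊)
      (max ⌈(C₁ / δ) ^ 2⌉₊ ⌈3 * T * C₃ * 48 / (c₁ * δ)⌉₊) := ⟨_, rfl⟩
  have hw16 : 16 ≤ w₀ := by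
    rw [hw₀def]
    exact (((le_max_left _ _).trans (le_max_left _ _))).trans (le_max_left _ _)
  have hwy : y₀ ≤ w₀ := by
    rw [hw₀def]
    exact (((le_max_right _ _).trans (le_max_left _ _))).trans (le_max_left _ _)
  have hw₀r : (0 : ℝ) < w₀ := by
    have : 0 < w₀ := by omega
    exact_mod_cast this
  have hwC2 : C₂ * 48 / (c₁ * δ) ≤ w₀ := by
    refine (Nat.le_ceil _).trans ?_
    rw [hw₀def]
    exact_mod_cast ((le_max_right _ _).trans (le_max_left _ _))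
  have hwC1 : (C₁ / δ) ^ 2 ≤ w₀ := by
    refine (Nat.le_ceil _).trans ?_
    rw [hw₀def]
    exact_mod_cast ((le_max_left _ _).trans (le_max_right _ _))
  have hwC3 : 3 * T * C₃ * 48 / (c₁ * δ) ≤ w₀ := by
    refine (Nat.le_ceil _).trans ?_
    rw [hw₀def]
    exact_mod_cast ((le_max_right _ _).trans (le_max_right _ _))
  obtain ⟨C₄, htlt⟩ := hTLT (3 * T)
  obtain ⟨c₅, hc₅def⟩ : ∃ c₅ : ℝ, c₅ = Real.exp (-C₄) / Real.sqrt (3 * T) := ⟨_, rfl⟩
  have hc₅ : 0 < c₅ := by rw [hc₅def]; positivity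
  obtain ⟨κ, hκ⟩ : ∃ κ : ℕ, κ = 168 * b := ⟨_, rfl⟩
  obtain ⟨R, hRdef⟩ : ∃ R : ℝ, R = 2 ^ κ * (8 * (w₀ : ℝ) ^ T + 2) := ⟨_, rfl⟩
  have hR : 0 < R := by rw [hRdef]; positivity
  obtain ⟨B, hB⟩ : ∃ B : ℝ, B = Real.sqrt (48 * b) := ⟨_, rfl⟩
  have hb0 : 1 ≤ b := by omega
  have hbr : (1 : ℝ) ≤ b := by exact_mod_cast hb0
  have hB0 : 0 < B := by rw [hB]; positivity
  obtain ⟨t₀, ht₀⟩ : ∃ t₀ : ℝ, t₀ = 4 * B / (c₁ * c₅ * δ) +
    2 * B * (48 * T * C₃) / (c₁ * δ * c₅) := ⟨_, rfl⟩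
  have ht₀0 : 0 ≤ t₀ := by rw [ht₀]; positivity
  obtain ⟨N₁, hN₁⟩ := exists_nat_ge (t₀ ^ (48 * b))
  obtain ⟨E₁, hE₁⟩ : ∃ x' : ℕ, x' = 2 ^ T := ⟨_, rfl⟩
  obtain ⟨E₂, hE₂⟩ : ∃ x' : ℕ, x' = w₀ ^ (12 * b) := ⟨_, rfl⟩
  refine ⟨c₁ * c₅ / (2 * R), N₁ + E₁ + E₂ + 256, by positivity, ?_⟩
  intro N M a b' c P hN hMN hNM hP hn hpos hprm ha hb' hc
  have hN256 : 256 ≤ N := by omega
  have hN2T : 2 ^ T ≤ N := by rw [← hE₁]; omega
  have hNw0 : w₀ ^ (12 * b) ≤ N := by rw [← hE₂]; omega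
  have hNN1 : N₁ ≤ N := by omega
  have hNr : (256 : ℝ) ≤ N := by exact_mod_cast hN256
  have hM1 : 1 ≤ M := by
    rcases Nat.eq_zero_or_pos M with h0 | h0
    · subst h0
      simp at hNM
      omega
    · exact h0
  have hMr : (1 : ℝ) ≤ M := by exact_mod_cast hM1
  have hds : 0 < ds a b' c := hpos.2
  have hD3 : 3 ≤ Dn a b' c := by
    have h1 := rgm_ds3 a b' c hds
    rw [← rgm_Dn a b' c hds] at h1
    exact_mod_cast h1
  obtain ⟨D, hD⟩ : ∃ D : ℕ, D = Dn a b' c := ⟨_, rfl⟩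
  have hD9 : D ≤ N ^ 9 := by rw [hD]; exact rgm_D9 a b' c N hN256 hds ha hc
  rw [← hD] at hD3
  obtain ⟨w, hw₀w, hDw, hwN, hww⟩ := rgm_w D w₀ T N b hw16 (by omega) hTb (by omega) hD9 hN2T hNw0
  have hw2 : 2 ≤ w := by omega
  obtain ⟨K, hK1, hK2⟩ := rgm_K w (12 * b) N hw2 (by omega) hwN
  obtain ⟨z, hz⟩ : ∃ z : ℕ, z = w ^ (2 ^ K) := ⟨_, rfl⟩
  rw [← hz] at hK1 hK2
  have hwz : w ≤ z := by
    rw [hz]
    calc w = w ^ 1 := (pow_one w).symm
      _ ≤ w ^ (2 ^ K) := Nat.pow_le_pow_right (by omega) Nat.one_le_two_pow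
  have hz2 : 2 ≤ z := by omega
  have hz1 : 1 ≤ z := by omega
  have hzN : z ≤ N := by
    calc z = z ^ 1 := (pow_one z).symm
      _ ≤ z ^ (12 * b) := Nat.pow_le_pow_right hz1 (by omega)
      _ ≤ N := hK1
  have hzb1 : z ^ b₁ ≤ N := (Nat.pow_le_pow_right hz1 (by omega)).trans hK1
  have hzb2 : z ^ b₂ * w ^ 5 ≤ N := by
    calc z ^ b₂ * w ^ 5 ≤ z ^ b₂ * z ^ 5 := Nat.mul_le_mul_left _ (Nat.pow_le_pow_left hwz 5)
      _ = z ^ (b₂ + 5) := by rw [pow_add]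
      _ ≤ z ^ (12 * b) := Nat.pow_le_pow_right hz1 (by omega)
      _ ≤ N := hK1
  have hzb3 : z ^ b₃ * z ≤ N := by
    calc z ^ b₃ * z = z ^ (b₃ + 1) := by rw [pow_succ]
      _ ≤ z ^ (12 * b) := Nat.pow_le_pow_right hz1 (by omega)
      _ ≤ N := hK1
  have hzM : z ≤ M := by
    have h1 : z ^ 3 ≤ M ^ 3 := ((Nat.pow_le_pow_right hz1 (by omega)).trans hK1).trans hNM
    exact le_of_pow_le_pow_left₀ (by norm_num) (by omega) h1
  have hwM : w ^ 5 ≤ M := by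
    have h1 : (w ^ 5) ^ 3 ≤ M ^ 3 := by
      calc (w ^ 5) ^ 3 = w ^ 15 := by rw [← pow_mul]
        _ ≤ w ^ (12 * b) := Nat.pow_le_pow_right (by omega) (by omega)
        _ ≤ N := hwN
        _ ≤ M ^ 3 := hNM
    exact le_of_pow_le_pow_left₀ (by norm_num) (by omega) h1
  obtain ⟨j, hj⟩ := rgm_j a b' c hds
  obtain ⟨A, hA⟩ : ∃ A : Finset ℕ, A = PD D w z := ⟨_, rfl⟩
  have hAPP : A ⊆ PP w z := by rw [hA]; exact Finset.filter_subset _ _
  have hAD : ∀ p ∈ A, ¬ p ∣ Dn a b' c := by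
    intro p hp h1
    rw [hA] at hp
    have h2 := (Finset.mem_filter.1 hp).2.2.1
    apply h2
    rw [hD]
    exact h1.mul_left 2
  -- real quantities
  obtain ⟨t, ht1, htN⟩ := rgm_t N b (by omega) hb0
  have ht0 : 0 < t := by linarith
  have htt : t₀ ≤ t := by
    by_contra h1
    push Not at h1
    have h2 : t ^ (48 * b) < t₀ ^ (48 * b) := pow_lt_pow_left₀ h1 ht0.le (by omega)
    have h3 : (N₁ : ℝ) ≤ N := by exact_mod_cast hNN1
    rw [htN] at h2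
    linarith
  have htz : t ^ 2 ≤ z := by
    by_contra h1
    push Not at h1
    have h2 : (z : ℝ) ^ (24 * b) < (t ^ 2) ^ (24 * b) :=
      pow_lt_pow_left₀ h1 (by positivity) (by omega)
    have h3 : (N : ℝ) < (z : ℝ) ^ (24 * b) := by
      have h4 : 2 * (12 * b) = 24 * b := by ring
      rw [h4] at hK2
      exact_mod_cast hK2
    have h5 : (t ^ 2) ^ (24 * b) = (N : ℝ) := by
      rw [← pow_mul, ← htN]
      congr 1
      ring
    rw [h5] at h2
    linarith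
  have htM : t ^ 2 ≤ M := by
    by_contra h1
    push Not at h1
    have h2 : (M : ℝ) ^ 3 < (t ^ 2) ^ 3 := pow_lt_pow_left₀ h1 (by positivity) (by norm_num)
    have h3 : (t ^ 2) ^ 3 ≤ (t ^ 2) ^ (24 * b) :=
      pow_le_pow_right₀ (one_le_pow₀ ht1) (by omega)
    have h5 : (t ^ 2) ^ (24 * b) = (N : ℝ) := by
      rw [← pow_mul, ← htN]
      congr 1
      ring
    have h6 : (N : ℝ) ≤ (M : ℝ) ^ 3 := by exact_mod_cast hNM
    rw [h5] at h3
    linarith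
  have hlogN : Real.log N ≤ 48 * b * t := by
    rw [← htN, Real.log_pow]
    push_cast
    refine mul_le_mul_of_nonneg_left ?_ (by positivity)
    linarith [Real.log_le_sub_one_of_pos ht0]
  have hlogN0 : 0 < Real.log N := Real.log_pos (by linarith)
  have hsqN : Real.sqrt (Real.log N) ≤ B * t := by
    rw [hB]
    calc Real.sqrt (Real.log N) ≤ Real.sqrt (48 * b * t ^ 2) := by
          refine Real.sqrt_le_sqrt (hlogN.trans ?_)
          refine mul_le_mul_of_nonneg_left ?_ (by positivity)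
          nlinarith
      _ = Real.sqrt (48 * b) * t := by
          rw [Real.sqrt_mul (by positivity), Real.sqrt_sq ht0.le]
  obtain ⟨s, hs⟩ : ∃ s : ℝ, s = sw A := ⟨_, rfl⟩
  have hs0 : 0 < s := by rw [hs]; exact Real.exp_pos _
  have hsD : c₅ * Real.sqrt (Real.log D / Real.log N) ≤ s := by
    rw [hs, hc₅def]
    refine rgm_sw A D w z N T C₄ hw2 hwz hzN hD3 (by omega) hDw ?_
    rw [hA]
    exact htlt D w z (by omega) hw2 hwz hDw
  have hlogD : 1 ≤ Real.log D := by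
    have h1 : (3 : ℝ) ≤ D := by exact_mod_cast hD3
    rw [Real.le_log_iff_exp_le (by linarith)]
    linarith [Real.exp_one_lt_d9]
  have hsN : c₅ ≤ s * (B * t) := by
    have h1 : Real.sqrt (1 / Real.log N) ≤ Real.sqrt (Real.log D / Real.log N) :=
      Real.sqrt_le_sqrt (div_le_div_of_nonneg_right hlogD hlogN0.le)
    have h2 : Real.sqrt (1 / Real.log N) * Real.sqrt (Real.log N) = 1 := by
      rw [← Real.sqrt_mul (by positivity), one_div, inv_mul_cancel₀ hlogN0.ne', Real.sqrt_one]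
    have h3 : c₅ * Real.sqrt (1 / Real.log N) ≤ s :=
      (mul_le_mul_of_nonneg_left h1 hc₅.le).trans hsD
    calc c₅ = c₅ * Real.sqrt (1 / Real.log N) * Real.sqrt (Real.log N) := by
          rw [mul_assoc, h2, mul_one]
      _ ≤ s * (B * t) := mul_le_mul h3 hsqN (Real.sqrt_nonneg _) hs0.le
  obtain ⟨n, hndef⟩ : ∃ n : ℝ, n = (P.card : ℝ) := ⟨_, rfl⟩
  rw [← hndef] at hn
  have hnpos : 0 < n := by
    have : 0 < δ * ((M : ℝ) * N) := by positivity
    linarith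
  have hn1 : 1 ≤ P.card := by
    rw [hndef] at hnpos
    exact_mod_cast hnpos
  -- few pairs on the diagonal
  have ht2N : t ^ 2 ≤ N := by
    have h1 : (z : ℝ) ≤ N := by exact_mod_cast hzN
    linarith
  have hX4 : 4 * n ≤ c₁ * s * n ^ 2 := by
    have h1 : 4 ≤ c₁ * s * n := by
      have h2 : 4 * B / (c₁ * c₅ * δ) ≤ t := by
        refine le_trans ?_ htt
        rw [ht₀]
        have : 0 ≤ 2 * B * (48 * T * C₃) / (c₁ * δ * c₅) := by positivity
        linarith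
      rw [div_le_iff₀ (by positivity)] at h2
      have h3 : δ * t ^ 2 ≤ n := by
        calc δ * t ^ 2 ≤ δ * ((M : ℝ) * N) := by
              refine mul_le_mul_of_nonneg_left ?_ hδ.le
              nlinarith
          _ ≤ n := hn
      have h4 : 4 * (B * t) ≤ (c₁ * s * n) * (B * t) := by
        calc 4 * (B * t) = (4 * B) * t := by ring
          _ ≤ (t * (c₁ * c₅ * δ)) * t := mul_le_mul_of_nonneg_right h2 ht0.le
          _ = c₁ * c₅ * (δ * t ^ 2) := by ring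
          _ ≤ c₁ * (s * (B * t)) * n :=
            mul_le_mul (mul_le_mul_of_nonneg_left hsN hc₁.le) h3 (by positivity) (by positivity)
          _ = (c₁ * s * n) * (B * t) := by ring
      exact le_of_mul_le_mul_right h4 (by positivity)
    calc 4 * n ≤ (c₁ * s * n) * n := mul_le_mul_of_nonneg_right h1 hnpos.le
      _ = c₁ * s * n ^ 2 := by ring
  -- the sieve
  have hlow' : c₁ * s * n ^ 2 ≤
      ((P ×ˢ P).filter (fun u => Free j A (u.1 - u.2))).card := by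
    rw [hs, hndef]
    refine hlow j N M P w K A hM1 (by omega) hP (by omega) ?_ ?_ ?_
    · rw [← hz]; exact hzb1
    · rw [← hz]; exact hAPP
    · have h1 : C₁ / δ ≤ Real.sqrt w := by
        refine Real.le_sqrt_of_sq_le ?_
        have : (w₀ : ℝ) ≤ w := by exact_mod_cast hw₀w
        linarith
      rw [div_le_iff₀ hδ] at h1
      have h2 : C₁ * ((M : ℝ) * N) ≤ Real.sqrt w * δ * ((M : ℝ) * N) :=
        mul_le_mul_of_nonneg_right h1 (by positivity)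
      rw [← hndef]
      calc C₁ * ((M : ℝ) * N) ≤ Real.sqrt w * δ * ((M : ℝ) * N) := h2
        _ = Real.sqrt w * (δ * ((M : ℝ) * N)) := by ring
        _ ≤ Real.sqrt w * n := mul_le_mul_of_nonneg_left hn (Real.sqrt_nonneg _)
  -- the bad vectors
  obtain ⟨Fr, hFr⟩ : ∃ Fr : ℤ × ℤ → Prop, Fr = fun v => Free j A v := ⟨_, rfl⟩
  obtain ⟨Gd, hGd⟩ : ∃ Gd : ℤ × ℤ → Prop, Gd = fun v => sm a b' c w v ≤ w ^ T ∧
      ∀ p : ℕ, p.Prime → w < p → p ∣ Dn a b' c → ¬ (p : ℤ) ∣ qf a b' c v := ⟨_, rfl⟩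
  have hbad : (((sbox N M).filter (fun v => v ≠ 0 ∧ Fr v ∧ ¬ Gd v)).card : ℝ) ≤
      c₁ * δ / 8 * ((M : ℝ) * N) * s := by
    refine (rgm_bad a b' c j N M w T A Fr Gd (fun v hv => by rw [hFr] at hv; exact hv)
      (fun v h1 h2 => by rw [hGd]; exact ⟨h1, h2⟩)).trans ?_
    have hA1 := hbda a b' c j N M w z T A hpos hprm hM1 hMN (by omega) hwz (by omega) hwM hzb2 hAPP
    have hB1 := hbdb a b' c j N M w z A hpos hprm hM1 hMN (by omega) hwz hzM hzb3 hAPP hAD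
    rw [← hs] at hA1 hB1
    have hwr : (w₀ : ℝ) ≤ w := by exact_mod_cast hw₀w
    have hwr0 : (0 : ℝ) < w := by linarith
    have hMN0 : (0 : ℝ) < (M : ℝ) * N := by positivity
    have e1 : C₂ * (1 / (w : ℝ)) ≤ c₁ * δ / 48 := by
      rw [div_le_iff₀ (by positivity)] at hwC2
      rw [mul_one_div, div_le_div_iff₀ hwr0 (by norm_num)]
      have h1 : (w₀ : ℝ) * (c₁ * δ) ≤ w * (c₁ * δ) :=
        mul_le_mul_of_nonneg_right hwr (by positivity)
      linarith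
    have e2 : C₂ * (1 / (T : ℝ)) ≤ c₁ * δ / 48 := by
      rw [mul_one_div]; exact hTC
    have hlw : 0 < Real.log w := Real.log_pos (by
      have : (2 : ℝ) ≤ w := by exact_mod_cast hw2
      linarith)
    have e3 : Real.log D / Real.log w ≤ 3 * T := by
      rw [div_le_iff₀ hlw]
      have h4 : Real.log D ≤ Real.log ((w : ℝ) ^ (3 * T)) := by
        refine Real.log_le_log (by linarith [show (3 : ℝ) ≤ D by exact_mod_cast hD3]) ?_
        exact_mod_cast hDw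
      rw [Real.log_pow] at h4
      push_cast at h4
      exact h4
    have e4 : 3 * T * C₃ * (1 / (w : ℝ)) ≤ c₁ * δ / 48 := by
      rw [div_le_iff₀ (by positivity)] at hwC3
      rw [mul_one_div, div_le_div_iff₀ hwr0 (by norm_num)]
      have h1 : (w₀ : ℝ) * (c₁ * δ) ≤ w * (c₁ * δ) :=
        mul_le_mul_of_nonneg_right hwr (by positivity)
      linarith
    have ez : (1 : ℝ) / z ≤ 1 / t ^ 2 := one_div_le_one_div_of_le (by positivity) htz
    have eM : (1 : ℝ) / M ≤ 1 / t ^ 2 := one_div_le_one_div_of_le (by positivity) htM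
    have e5 : 3 * T * C₃ * (1 / (z : ℝ) + 1 / M) ≤ c₁ * δ / 16 * s := by
      have h2 : 2 * B * (48 * T * C₃) / (c₁ * δ * c₅) ≤ t := by
        refine le_trans ?_ htt
        rw [ht₀]
        have : 0 ≤ 4 * B / (c₁ * c₅ * δ) := by positivity
        linarith
      rw [div_le_iff₀ (by positivity)] at h2
      have h3 : 3 * T * C₃ * (1 / (z : ℝ) + 1 / M) ≤ 3 * T * C₃ * (2 / t ^ 2) := by
        refine mul_le_mul_of_nonneg_left ?_ (by positivity)
        calc (1 : ℝ) / z + 1 / M ≤ 1 / t ^ 2 + 1 / t ^ 2 := add_le_add ez eM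
          _ = 2 / t ^ 2 := by ring
      refine h3.trans ?_
      have h4 : (3 * T * C₃ * (2 / t ^ 2)) * (B * t * 16) ≤ (c₁ * δ / 16 * s) * (B * t * 16) := by
        have h5 : (3 * T * C₃ * (2 / t ^ 2)) * (B * t * 16) = 2 * B * (48 * T * C₃) / t := by
          field_simp
          ring
        rw [h5]
        calc 2 * B * (48 * T * C₃) / t ≤ c₁ * δ * c₅ := by
              rw [div_le_iff₀ ht0]
              linarith
          _ ≤ c₁ * δ * (s * (B * t)) := mul_le_mul_of_nonneg_left hsN (by positivity)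
          _ = (c₁ * δ / 16 * s) * (B * t * 16) := by ring
      exact le_of_mul_le_mul_right h4 (by positivity)
    have hA2 : C₂ * (1 / (T : ℝ) + 1 / (w : ℝ)) * ((M : ℝ) * N) * s ≤
        (c₁ * δ / 24) * ((M : ℝ) * N) * s := by
      refine mul_le_mul_of_nonneg_right ?_ hs0.le
      refine mul_le_mul_of_nonneg_right ?_ hMN0.le
      calc C₂ * (1 / (T : ℝ) + 1 / (w : ℝ)) = C₂ * (1 / (T : ℝ)) + C₂ * (1 / (w : ℝ)) := by ring
        _ ≤ c₁ * δ / 48 + c₁ * δ / 48 := add_le_add e2 e1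
        _ = c₁ * δ / 24 := by ring
    have hB2 : C₃ * (Real.log (Dn a b' c) / Real.log w) *
        ((M : ℝ) * N / w * s + (M : ℝ) * N / z + N) ≤
        (c₁ * δ / 48 + c₁ * δ / 16) * ((M : ℝ) * N) * s := by
      rw [← hD]
      calc C₃ * (Real.log D / Real.log w) * ((M : ℝ) * N / w * s + (M : ℝ) * N / z + N)
          ≤ C₃ * (3 * T) * ((M : ℝ) * N / w * s + (M : ℝ) * N / z + N) := by
            refine mul_le_mul_of_nonneg_right ?_ (by positivity)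
            exact mul_le_mul_of_nonneg_left e3 hC₃.le
        _ = (3 * T * C₃ * (1 / (w : ℝ))) * (((M : ℝ) * N) * s) +
            (3 * T * C₃ * (1 / (z : ℝ) + 1 / M)) * ((M : ℝ) * N) := by
            field_simp
            ring
        _ ≤ (c₁ * δ / 48) * (((M : ℝ) * N) * s) + (c₁ * δ / 16 * s) * ((M : ℝ) * N) :=
            add_le_add (mul_le_mul_of_nonneg_right e4 (by positivity))
              (mul_le_mul_of_nonneg_right e5 hMN0.le)
        _ = (c₁ * δ / 48 + c₁ * δ / 16) * ((M : ℝ) * N) * s := by ring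
    calc _ ≤ C₂ * (1 / (T : ℝ) + 1 / (w : ℝ)) * ((M : ℝ) * N) * s +
          C₃ * (Real.log (Dn a b' c) / Real.log w) *
          ((M : ℝ) * N / w * s + (M : ℝ) * N / z + N) := add_le_add hA1 hB1
      _ ≤ (c₁ * δ / 24) * ((M : ℝ) * N) * s +
          (c₁ * δ / 48 + c₁ * δ / 16) * ((M : ℝ) * N) * s := add_le_add hA2 hB2
      _ = c₁ * δ / 8 * ((M : ℝ) * N) * s := by ring
  -- fibres
  have hκN : 24 * N ^ 6 < z ^ κ := by
    calc 24 * N ^ 6 < N * N ^ 6 := Nat.mul_lt_mul_of_pos_right (by omega) (by positivity)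
      _ = N ^ 7 := by ring
      _ ≤ (z ^ (2 * (12 * b))) ^ 7 := Nat.pow_le_pow_left hK2.le 7
      _ = z ^ κ := by rw [hκ, ← pow_mul]; congr 1; ring
  have hfib : ∀ (m : ℤ) (S : Finset (ℤ × ℤ)), (∀ v ∈ S, v ∈ sbox N M ∧ v ≠ 0 ∧ Fr v ∧
      Gd v ∧ qf a b' c v = m) → (S.card : ℝ) ≤ R := by
    intro m S hS
    rw [hFr, hGd] at hS
    rw [hRdef]
    refine rgm_fib a b' c j N M w₀ w z κ T hFIB hpos hw2 hwz hMN ha hb' hc (hj w z) hκN ?_ m S ?_
    · rw [← hD]; exact hww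
    · rw [← hD, ← hA]
      rw [← hD] at hS
      exact hS
  have hlow2 : c₁ * s * n ^ 2 ≤ ((P ×ˢ P).filter (fun u => Fr (u.1 - u.2))).card := by
    rw [hFr]
    exact hlow'
  have hfin := hCOR N M P Fr Gd
    (qf a b' c) (c₁ * s * n ^ 2) R hP hn1 hR.le (by rw [← hndef]; exact hX4) hlow2 ?_ hfib
  · have h1 : c₁ * s * n ^ 2 ≤ 2 * n * R * (cq a b' c P : ℝ) := by
      rw [hndef] at hfin ⊢
      exact hfin
    have h2 : c₁ * s * n ≤ 2 * R * (cq a b' c P : ℝ) := by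
      have h3 : (c₁ * s * n) * n ≤ (2 * R * (cq a b' c P : ℝ)) * n := by
        calc (c₁ * s * n) * n = c₁ * s * n ^ 2 := by ring
          _ ≤ 2 * n * R * (cq a b' c P : ℝ) := h1
          _ = (2 * R * (cq a b' c P : ℝ)) * n := by ring
      exact le_of_mul_le_mul_right h3 hnpos
    rw [← hD, ← hndef]
    have h4 : c₁ * c₅ / (2 * R) * Real.sqrt (Real.log D / Real.log N) * n * (2 * R) ≤
        (cq a b' c P : ℝ) * (2 * R) := by
      calc c₁ * c₅ / (2 * R) * Real.sqrt (Real.log D / Real.log N) * n * (2 * R)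
          = c₁ * (c₅ * Real.sqrt (Real.log D / Real.log N)) * n := by
            field_simp
        _ ≤ c₁ * s * n := by
            refine mul_le_mul_of_nonneg_right ?_ hnpos.le
            exact mul_le_mul_of_nonneg_left hsD hc₁.le
        _ ≤ 2 * R * (cq a b' c P : ℝ) := h2
        _ = (cq a b' c P : ℝ) * (2 * R) := by ring
    exact le_of_mul_le_mul_right h4 (by positivity)
  · rw [← hndef]
    calc 4 * n * (((sbox N M).filter (fun v => v ≠ 0 ∧ Fr v ∧ ¬ Gd v)).card : ℝ)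
        ≤ 4 * n * (c₁ * δ / 8 * ((M : ℝ) * N) * s) :=
          mul_le_mul_of_nonneg_left hbad (by positivity)
      _ = (c₁ * s / 2 * n) * (δ * ((M : ℝ) * N)) := by ring
      _ ≤ (c₁ * s / 2 * n) * n := mul_le_mul_of_nonneg_left hn (by positivity)
      _ ≤ c₁ * s * n ^ 2 := by
          have : 0 ≤ c₁ * s * n ^ 2 := by positivity
          nlinarith

end Pool.Agent.Helper47.UG
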